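import Pool.Agent.Helper64.RF.GoalsD

/-! Packet MY of project RF (local Myers theorem). -/

open Quaternion Set

namespace Pool.Agent.Helper85.RF

open Pool.Agent.Helper64.RF

theorem g_nonneg {g : ℍ[ℝ] → W →L[ℝ] W →L[ℝ] ℝ} (hg : Met g) (x : ℍ[ℝ]) (hx : x ≠ 0) (v : W) :
    0 ≤ g x v v := by
  by_cases hv : v = 0
  · rw [hv]
    simp
  · exact (hg.pos x hx v hv).le

theorem En_nonneg {g : ℍ[ℝ] → W →L[ℝ] W →L[ℝ] ℝ} (hg : Met g) (c : ℝ → ℍ[ℝ]) (hc : C1 c) :
    0 ≤ En g c := by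
  unfold En
  exact intervalIntegral.integral_nonneg zero_le_one (fun t _ => g_nonneg hg _ (hc.2 t) _)

theorem En_const (g : ℍ[ℝ] → W →L[ℝ] W →L[ℝ] ℝ) (p : ℍ[ℝ]) : En g (fun _ => p) = 0 := by
  have hv : ∀ t, vel (fun _ => p) t = 0 := by
    intro t
    unfold vel
    rw [deriv_const, mul_zero]
    funext i
    fin_cases i <;> simp [Helper64.RF.im]
  unfold En
  simp [hv]

theorem my (crv : CRV) (cont : CONT) (myb : MYB) : MY := by
  intro g G hg hG lam r2 p hlam hr2 hp hric y hy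
  have hbdd : ∀ z, BddBelow {e : ℝ | ∃ c, C1 c ∧ c 0 = p ∧ c 1 = z ∧ En g c = e} := by
    intro z
    refine ⟨0, ?_⟩
    rintro e ⟨c, hc, _, _, rfl⟩
    exact En_nonneg hg c hc
  have hne : ∀ z, z ≠ 0 → ({e : ℝ | ∃ c, C1 c ∧ c 0 = p ∧ c 1 = z ∧ En g c = e}).Nonempty := by
    intro z hz
    obtain ⟨c, hc, h0, h1⟩ := crv.1 p z hp hz
    exact ⟨En g c, c, hc, h0, h1, rfl⟩
  have hpos : 0 < 3 * Real.pi ^ 2 / lam := by positivity
  have hfp : eInf g p p ≤ 0 := by
    unfold eInf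
    exact csInf_le (hbdd p) ⟨fun _ => p, ⟨contDiff_const, fun _ => hp⟩, rfl, rfl, En_const g p⟩
  have hlt : eInf g p y < r2 := by
    by_contra hcon
    push Not at hcon
    have hpre : IsPreconnected ({0}ᶜ : Set ℍ[ℝ]) := by
      have hr : 1 < Module.rank ℝ ℍ[ℝ] := by
        rw [Quaternion.rank_eq_four]
        norm_num
      exact (isConnected_compl_singleton_of_one_lt_rank hr 0).isPreconnected
    have hc := cont g hg p hp
    have hiv := hpre.intermediate_value (a := p) (b := y) (by simpa using hp) (by simpa using hy) hc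
    have hm : (3 * Real.pi ^ 2 / lam + r2) / 2 ∈ Icc (eInf g p p) (eInf g p y) := by
      constructor <;> linarith
    obtain ⟨z, hz, hzm⟩ := hiv hm
    have hz0 : z ≠ 0 := by simpa using hz
    have h1 : eInf g p z < r2 := by rw [hzm]; linarith
    have h2 := myb g G hg hG lam r2 p z hlam hp hz0 hric h1
    rw [hzm] at h2
    linarith
  unfold eInf at hlt
  obtain ⟨e, ⟨c, hc, h0, h1, he⟩, hlt2⟩ := exists_lt_of_csInf_lt (hne y hy) hlt
  exact ⟨c, hc, h0, h1, he ▸ hlt2⟩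

end Pool.Agent.Helper85.RF
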